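import Pool.Agent.Lib.MP_0430e4_lc.ACM.M4

/-!
Multiples theorem (helper30), Lean by helper86: `MultS`.
-/

set_option autoImplicit false

open Finset
open scoped ComplexConjugate

namespace Pool.Agent.Lib.MP_0430e4_lc.ACM

open AC BY

variable {n : ℕ}

theorem Box_eq {A : Finset (Fin n → ℤ)} (hA : A.Nonempty) (a : ℝ) :
    Box A a = QQ A a * (A.card : ℝ) ^ 4 := by
  have hc : (A.card : ℝ) ≠ 0 := Nat.cast_ne_zero.mpr hA.card_pos.ne'
  have h1 : ∀ s, ‖∑ x ∈ A, ph (a * ((x ⬝ᵥ s : ℤ) : ℝ))‖ ^ 2 = gg A a s * (A.card : ℝ) ^ 2 := by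
    intro s
    unfold gg HH
    rw [norm_div, Complex.norm_natCast, div_pow]
    field_simp
  unfold Box QQ
  simp only [h1]
  rw [sum_product]
  simp only [← sum_mul, dd]
  field_simp

theorem mult_log {A : Finset (Fin n → ℤ)} (hA : A.Nonempty) (h01 : Zo A) (a : ℝ) (m T : ℕ) (hT : 1 ≤ T)
    (hn : 1 ≤ n) (Λ : ℝ) (hΛ : 0 ≤ Λ) (hQ : Real.exp (-Λ) ≤ QQ A a) :
    Real.exp (-(m * (2 * (n * Real.log (2 * T + 3) / T + Λ) + 6 * T * Λ + 10))) ≤ QQ A (m * a) := by
  have hT' : (1 : ℝ) ≤ T := by exact_mod_cast hT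
  set Z := GG A T a T 0 with hZ
  have hQ0 : 0 < QQ A a := (Real.exp_pos _).trans_le hQ
  have hZ1 : Real.exp (-(T * Λ)) ≤ Z := by
    refine le_trans ?_ (Z_ge hA h01 T a)
    calc Real.exp (-(T * Λ)) = Real.exp (-Λ) ^ T := by rw [← Real.exp_nat_mul]; congr 1; ring
      _ ≤ _ := pow_le_pow_left₀ (Real.exp_pos _).le hQ _
  have hZ0 : 0 < Z := (Real.exp_pos _).trans_le hZ1
  have hlogZ : -(T * Λ) ≤ Real.log Z := by
    rw [Real.le_log_iff_exp_le hZ0]; exact hZ1
  have hlog3 : 0 < Real.log (2 * T + 3) := Real.log_pos (by linarith)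
  have hκ : Real.log ((bx n (T + 1)).card / Z) / T ≤ n * Real.log (2 * T + 3) / T + Λ := by
    have h1 : Real.log ((bx n (T + 1)).card / Z) = n * Real.log (2 * T + 3) - Real.log Z := by
      rw [Real.log_div (by rw [card_bx]; positivity) hZ0.ne', card_bx]
      push_cast
      rw [Real.log_pow]
      congr 3; ring
    rw [h1, sub_div]
    have h2 : -(Real.log Z) / T ≤ Λ := by
      rw [div_le_iff₀ (by linarith)]; linarith
    have h3 : n * Real.log (2 * T + 3) / T - Real.log Z / T = n * Real.log (2 * T + 3) / T + -(Real.log Z) / T := by ring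
    rw [h3]; linarith
  set E : ℝ := 2 * (n * Real.log (2 * T + 3) / T + Λ) + 2 * T * Λ + 2 with hE
  have hx0 : 0 ≤ n * Real.log (2 * T + 3) / T := by positivity
  have hTΛ : 0 ≤ T * Λ := by positivity
  have hE0 : 0 < E := by rw [hE]; nlinarith
  have hmq := mult_quant hA h01 T a hT hZ0 m E hE0 (by rw [hE]; linarith)
  refine le_trans ?_ hmq
  have h4 : Real.exp (-(E + 2)) ≤ Real.exp (-E) / 4 := by
    rw [neg_add, Real.exp_add]
    have : Real.exp (-2) ≤ 1 / 4 := by
      rw [Real.exp_neg, inv_le_comm₀ (Real.exp_pos _) (by norm_num)]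
      have h5 : (4 : ℝ) ≤ Real.exp 1 ^ 2 := by
        have := Real.add_one_le_exp (1 : ℝ); nlinarith
      rw [← Real.exp_nat_mul] at h5
      norm_num at h5 ⊢
      exact h5
    have h6 := mul_le_mul_of_nonneg_left this (Real.exp_pos (-E)).le
    linarith
  have h5 : Real.exp (-(T * Λ + 1)) ≤ Z / 2 := by
    rw [neg_add, Real.exp_add]
    have h7 : Real.exp (-1) ≤ 1 / 2 := by
      rw [Real.exp_neg, inv_le_comm₀ (Real.exp_pos _) (by norm_num)]
      have := Real.add_one_le_exp (1 : ℝ); norm_num at this ⊢; exact this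
    calc Real.exp (-(T * Λ)) * Real.exp (-1) ≤ Z * (1 / 2) := mul_le_mul hZ1 h7 (Real.exp_pos _).le hZ0.le
      _ = _ := by ring
  calc Real.exp (-(m * (2 * (n * Real.log (2 * T + 3) / T + Λ) + 6 * T * Λ + 10)))
      ≤ Real.exp (-(E + 2)) ^ m * Real.exp (-(T * Λ + 1)) ^ (4 * m) := by
        rw [← Real.exp_nat_mul, ← Real.exp_nat_mul, ← Real.exp_add]
        apply Real.exp_le_exp.mpr
        rw [hE]; push_cast
        have : (0 : ℝ) ≤ m := Nat.cast_nonneg m
        nlinarith
    _ ≤ _ := by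
        apply mul_le_mul
        · exact pow_le_pow_left₀ (Real.exp_pos _).le h4 _
        · exact pow_le_pow_left₀ (Real.exp_pos _).le h5 _
        · positivity
        · positivity

theorem multS : MultS := by
  intro m η hη
  -- choose `T`
  have hlim : Filter.Tendsto (fun T : ℕ => Real.log (2 * T + 3) / T) Filter.atTop (nhds 0) := by
    have h1 : Filter.Tendsto (fun x : ℝ => Real.log x / (1 / 2 * x + (-3 / 2))) Filter.atTop (nhds 0) := by
      have := Real.tendsto_pow_log_div_mul_add_atTop (1 / 2) (-3 / 2) 1 (by norm_num)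
      simpa using this
    have h2 : Filter.Tendsto (fun T : ℕ => (2 * (T : ℝ) + 3)) Filter.atTop Filter.atTop := by
      apply Filter.tendsto_atTop_add_const_right
      exact Filter.Tendsto.const_mul_atTop (by norm_num) tendsto_natCast_atTop_atTop
    have h3 := h1.comp h2
    refine h3.congr ?_
    intro T
    simp only [Function.comp]
    congr 1; ring
  have hlog2 : 0 < Real.log 2 := Real.log_pos (by norm_num)
  have hm0 : (0 : ℝ) ≤ m := Nat.cast_nonneg m
  set β : ℝ := η * Real.log 2 / 4 with hβ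
  have hβ0 : 0 < β := by positivity
  have hev := hlim.eventually (gt_mem_nhds (show (0 : ℝ) < β / (2 * (m + 1)) by positivity))
  obtain ⟨T, hT1, hTβ⟩ := ((Filter.eventually_ge_atTop 1).and hev).exists
  have hT' : (1 : ℝ) ≤ T := by exact_mod_cast hT1
  set τ : ℝ := η / (4 * ((m + 1) * (2 + 6 * T))) with hτ
  have hτ0 : 0 < τ := by positivity
  obtain ⟨n1, hn1⟩ := exists_nat_gt (10 * (m + 1) / β)
  refine ⟨τ, hτ0, max n1 1, ?_⟩
  intro n hn A hA h01 a hBox
  have hn1' : (n1 : ℝ) ≤ n := by exact_mod_cast (le_max_left _ _).trans hn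
  have hn2 : 1 ≤ n := (le_max_right _ _).trans hn
  have hnR : (1 : ℝ) ≤ n := by exact_mod_cast hn2
  have hc : (0 : ℝ) < (A.card : ℝ) ^ 4 := by
    have : (0 : ℝ) < A.card := by exact_mod_cast hA.card_pos
    positivity
  rw [Box_eq hA] at hBox ⊢
  have hQ := le_of_mul_le_mul_right hBox hc
  apply mul_le_mul_of_nonneg_right _ hc.le
  have hpw : ∀ x : ℝ, pw n (-x) = Real.exp (-(x * n * Real.log 2)) := by
    intro x
    unfold pw
    rw [Real.rpow_def_of_pos (by norm_num)]
    congr 1; ring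
  rw [hpw] at hQ ⊢
  have hml := mult_log hA h01 a m T hT1 hn2 (τ * n * Real.log 2) (by positivity) hQ
  refine le_trans (Real.exp_le_exp.mpr ?_) hml
  apply neg_le_neg
  -- numerics
  have e1 : (m : ℝ) * (2 * (n * Real.log (2 * T + 3) / T)) ≤ β * n := by
    have h1 : Real.log (2 * T + 3) / T ≤ β / (2 * (m + 1)) := hTβ.le
    calc (m : ℝ) * (2 * (n * Real.log (2 * T + 3) / T)) = 2 * m * n * (Real.log (2 * T + 3) / T) := by ring
      _ ≤ 2 * m * n * (β / (2 * (m + 1))) := mul_le_mul_of_nonneg_left h1 (by positivity)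
      _ = (m / (m + 1)) * (β * n) := by field_simp
      _ ≤ 1 * (β * n) := by
          apply mul_le_mul_of_nonneg_right _ (by positivity)
          rw [div_le_one (by positivity)]; linarith
      _ = _ := one_mul _
  have e2 : (m : ℝ) * ((2 + 6 * T) * (τ * n * Real.log 2)) ≤ β * n := by
    rw [hτ, hβ]
    have h2 : (m : ℝ) * ((2 + 6 * T) * (η / (4 * ((m + 1) * (2 + 6 * T))) * n * Real.log 2)) =
        (m / (m + 1)) * (η * Real.log 2 / 4 * n) := by field_simp
    rw [h2]
    calc (m : ℝ) / (m + 1) * (η * Real.log 2 / 4 * n) ≤ 1 * (η * Real.log 2 / 4 * n) := by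
          apply mul_le_mul_of_nonneg_right _ (by positivity)
          rw [div_le_one (by positivity)]; linarith
      _ = _ := one_mul _
  have e3 : (m : ℝ) * 10 ≤ β * n := by
    rw [div_lt_iff₀ hβ0] at hn1
    nlinarith
  have e4 : η * n * Real.log 2 = 4 * (β * n) := by rw [hβ]; ring
  rw [e4]
  have hβn : 0 ≤ β * n := by positivity
  nlinarith

end Pool.Agent.Lib.MP_0430e4_lc.ACM
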