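import Pool.Agent.Lib.MP_0430e4_lc.AC.Defs

/-!
Multiples theorem (helper30), Lean by helper86: characters, the function `gg`, energies.
-/

set_option autoImplicit false

open Finset
open scoped ComplexConjugate

namespace Pool.Agent.Lib.MP_0430e4_lc.ACM

open AC

variable {n : ℕ}

theorem ph_add (a b : ℝ) : ph (a + b) = ph a * ph b := by
  unfold ph; rw [← Complex.exp_add]; congr 1; push_cast; ring

theorem ph_zero : ph 0 = 1 := by unfold ph; simp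

theorem ph_conj (a : ℝ) : conj (ph a) = ph (-a) := by
  unfold ph; rw [← Complex.exp_conj]; congr 1; simp

theorem ph_norm (a : ℝ) : ‖ph a‖ = 1 := Complex.norm_exp_ofReal_mul_I a

theorem ph_sum {ι : Type*} (s : Finset ι) (f : ι → ℝ) : ph (∑ i ∈ s, f i) = ∏ i ∈ s, ph (f i) := by
  classical
  induction s using Finset.induction_on with
  | empty => simp [ph_zero]
  | insert i s hi ih => rw [sum_insert hi, prod_insert hi, ph_add, ih]

/-- difference of a pair -/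
def dd (z : (Fin n → ℤ) × (Fin n → ℤ)) : Fin n → ℤ := z.1 - z.2

/-- the character `exp (i a <q, dd z>)` -/
noncomputable def chi (a : ℝ) (q : Fin n → ℤ) (z : (Fin n → ℤ) × (Fin n → ℤ)) : ℂ :=
  ph (a * ((q ⬝ᵥ dd z : ℤ) : ℝ))

theorem chi_add (a : ℝ) (q q' : Fin n → ℤ) (z) : chi a (q + q') z = chi a q z * chi a q' z := by
  unfold chi; rw [add_dotProduct, ← ph_add]; congr 1; push_cast; ring

theorem chi_zero (a : ℝ) (z : (Fin n → ℤ) × (Fin n → ℤ)) : chi a 0 z = 1 := by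
  unfold chi; simp [ph_zero]

theorem chi_neg (a : ℝ) (q : Fin n → ℤ) (z) : chi a (-q) z = conj (chi a q z) := by
  unfold chi; rw [ph_conj, neg_dotProduct]; congr 1; push_cast; ring

theorem chi_sub (a : ℝ) (q q' : Fin n → ℤ) (z) : chi a (q - q') z = chi a q z * conj (chi a q' z) := by
  rw [sub_eq_add_neg, chi_add, chi_neg]

theorem chi_norm (a : ℝ) (q : Fin n → ℤ) (z) : ‖chi a q z‖ = 1 := ph_norm _

theorem chi_sum {ι : Type*} (s : Finset ι) (a : ℝ) (f : ι → Fin n → ℤ) (z) :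
    chi a (∑ i ∈ s, f i) z = ∏ i ∈ s, chi a (f i) z := by
  classical
  induction s using Finset.induction_on with
  | empty => simp [chi_zero]
  | insert i s hi ih => rw [sum_insert hi, prod_insert hi, chi_add, ih]

theorem chi_nsmul (a : ℝ) (m : ℕ) (q : Fin n → ℤ) (z) : chi a (m • q) z = chi a q z ^ m := by
  induction m with
  | zero => simp [chi_zero]
  | succ m ih => rw [succ_nsmul, chi_add, ih, pow_succ]

/-- the normalised exponential sum -/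
noncomputable def HH (A : Finset (Fin n → ℤ)) (a : ℝ) (s : Fin n → ℤ) : ℂ :=
  (∑ x ∈ A, ph (a * ((x ⬝ᵥ s : ℤ) : ℝ))) / (A.card : ℂ)

/-- its square -/
noncomputable def gg (A : Finset (Fin n → ℤ)) (a : ℝ) (s : Fin n → ℤ) : ℝ := ‖HH A a s‖ ^ 2

theorem gg_nonneg (A : Finset (Fin n → ℤ)) (a : ℝ) (s : Fin n → ℤ) : 0 ≤ gg A a s := sq_nonneg _

theorem HH_le (A : Finset (Fin n → ℤ)) (a : ℝ) (s : Fin n → ℤ) : ‖HH A a s‖ ≤ 1 := by
  unfold HH
  rw [norm_div, Complex.norm_natCast]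
  apply div_le_one_of_le₀ _ (Nat.cast_nonneg _)
  refine (norm_sum_le _ _).trans ?_
  simp [ph_norm]

theorem gg_le (A : Finset (Fin n → ℤ)) (a : ℝ) (s : Fin n → ℤ) : gg A a s ≤ 1 := by
  unfold gg
  have := HH_le A a s
  have h0 := norm_nonneg (HH A a s)
  nlinarith

theorem gg_sum (A : Finset (Fin n → ℤ)) (a : ℝ) (s : Fin n → ℤ) :
    ((gg A a s : ℝ) : ℂ) * (A.card : ℂ) ^ 2 = ∑ z ∈ A ×ˢ A, chi a s z := by
  have h1 : ((gg A a s : ℝ) : ℂ) = HH A a s * conj (HH A a s) := by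
    unfold gg; rw [Complex.mul_conj, Complex.normSq_eq_norm_sq]
  by_cases hA : A.card = 0
  · rw [Finset.card_eq_zero] at hA
    subst hA; simp
  · have hA' : (A.card : ℂ) ≠ 0 := Nat.cast_ne_zero.mpr hA
    rw [h1]
    unfold HH
    rw [map_div₀, Complex.conj_natCast]
    rw [sum_product]
    have h2 : (∑ x ∈ A, ph (a * ((x ⬝ᵥ s : ℤ) : ℝ))) / (A.card : ℂ) *
        (conj (∑ x ∈ A, ph (a * ((x ⬝ᵥ s : ℤ) : ℝ))) / (A.card : ℂ)) * (A.card : ℂ) ^ 2 =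
        (∑ x ∈ A, ph (a * ((x ⬝ᵥ s : ℤ) : ℝ))) * conj (∑ x ∈ A, ph (a * ((x ⬝ᵥ s : ℤ) : ℝ))) := by
      field_simp
    rw [h2, map_sum, sum_mul_sum]
    apply sum_congr rfl; intro x _
    apply sum_congr rfl; intro y _
    rw [ph_conj, ← ph_add]
    unfold chi dd
    congr 1
    rw [dotProduct_comm s, sub_dotProduct]
    push_cast; ring

theorem gg_avg {A : Finset (Fin n → ℤ)} (hA : A.Nonempty) (a : ℝ) (s : Fin n → ℤ) :
    ((gg A a s : ℝ) : ℂ) = (∑ z ∈ A ×ˢ A, chi a s z) / (A.card : ℂ) ^ 2 := by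
  rw [← gg_sum]
  have : (A.card : ℂ) ≠ 0 := Nat.cast_ne_zero.mpr hA.card_pos.ne'
  field_simp

/-- Fourier transform of a weight on a finite set `B` -/
noncomputable def ft (a : ℝ) (B : Finset (Fin n → ℤ)) (w : (Fin n → ℤ) → ℝ)
    (z : (Fin n → ℤ) × (Fin n → ℤ)) : ℂ := ∑ q ∈ B, (w q : ℂ) * chi a q z

theorem ft_norm_le (a : ℝ) (B : Finset (Fin n → ℤ)) (w : (Fin n → ℤ) → ℝ) (hw : ∀ q, 0 ≤ w q) (z) :
    ‖ft a B w z‖ ≤ ∑ q ∈ B, w q := by
  unfold ft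
  refine (norm_sum_le _ _).trans (le_of_eq ?_)
  apply sum_congr rfl; intro q _
  rw [norm_mul, chi_norm, mul_one, Complex.norm_real, Real.norm_of_nonneg (hw q)]

/-- the mixed moment, expanded -/
theorem moment {A : Finset (Fin n → ℤ)} (hA : A.Nonempty) (a : ℝ) (m : ℕ) (B : Finset (Fin n → ℤ))
    (w1 w2 : (Fin n → ℤ) → ℝ) :
    (∑ z ∈ A ×ˢ A, ft a B w1 z ^ m * conj (ft a B w2 z) ^ m) / (A.card : ℂ) ^ 2 =
      ((∑ u ∈ Fintype.piFinset (fun _ : Fin m => B), ∑ u' ∈ Fintype.piFinset (fun _ : Fin m => B),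
        (∏ i, w1 (u i)) * (∏ i, w2 (u' i)) * gg A a (∑ i, u i - ∑ i, u' i) : ℝ) : ℂ) := by
  have h1 : ∀ (w : (Fin n → ℤ) → ℝ) (z : (Fin n → ℤ) × (Fin n → ℤ)), ft a B w z ^ m =
      ∑ u ∈ Fintype.piFinset (fun _ : Fin m => B), ((∏ i, w (u i) : ℝ) : ℂ) * chi a (∑ i, u i) z := by
    intro w z
    have : ft a B w z ^ m = ∏ _i : Fin m, ∑ q ∈ B, (w q : ℂ) * chi a q z := by
      rw [Finset.prod_const, Finset.card_univ, Fintype.card_fin]; rfl
    rw [this, Finset.prod_univ_sum]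
    apply sum_congr rfl; intro u _
    rw [Finset.prod_mul_distrib, chi_sum]
    push_cast; rfl
  have h2 : ∀ z ∈ A ×ˢ A, ft a B w1 z ^ m * conj (ft a B w2 z) ^ m =
      ∑ u ∈ Fintype.piFinset (fun _ : Fin m => B), ∑ u' ∈ Fintype.piFinset (fun _ : Fin m => B),
        (((∏ i, w1 (u i)) * (∏ i, w2 (u' i)) : ℝ) : ℂ) * chi a (∑ i, u i - ∑ i, u' i) z := by
    intro z _
    rw [← map_pow, h1, h1, map_sum, sum_mul_sum]
    apply sum_congr rfl; intro u _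
    apply sum_congr rfl; intro u' _
    rw [map_mul, Complex.conj_ofReal, chi_sub]
    push_cast; ring
  rw [sum_congr rfl h2, sum_comm]
  rw [Finset.sum_div]
  push_cast
  apply sum_congr rfl; intro u _
  rw [sum_comm, Finset.sum_div]
  apply sum_congr rfl; intro u' _
  rw [← mul_sum, gg_avg hA]
  push_cast
  ring

/-- monotonicity of the mixed moment -/
theorem moment_mono {A : Finset (Fin n → ℤ)} (hA : A.Nonempty) (a : ℝ) (m : ℕ) (B : Finset (Fin n → ℤ))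
    (w1 w2 W1 W2 : (Fin n → ℤ) → ℝ) (h1 : ∀ q, 0 ≤ w1 q) (h2 : ∀ q, 0 ≤ w2 q)
    (h3 : ∀ q, w1 q ≤ W1 q) (h4 : ∀ q, w2 q ≤ W2 q) :
    ((∑ z ∈ A ×ˢ A, ft a B w1 z ^ m * conj (ft a B w2 z) ^ m) / (A.card : ℂ) ^ 2).re ≤
      ((∑ z ∈ A ×ˢ A, ft a B W1 z ^ m * conj (ft a B W2 z) ^ m) / (A.card : ℂ) ^ 2).re := by
  rw [moment hA, moment hA, Complex.ofReal_re, Complex.ofReal_re]
  apply sum_le_sum; intro u _
  apply sum_le_sum; intro u' _
  apply mul_le_mul_of_nonneg_right _ (gg_nonneg _ _ _)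
  apply mul_le_mul
  · exact Finset.prod_le_prod (fun i _ => h1 _) (fun i _ => h3 _)
  · exact Finset.prod_le_prod (fun i _ => h2 _) (fun i _ => h4 _)
  · exact Finset.prod_nonneg fun i _ => h2 _
  · exact Finset.prod_nonneg fun i _ => (h1 _).trans (h3 _)

/-- energy: `m_b ^ 4 ≤ ∑ lam lam g` -/
theorem energy {A : Finset (Fin n → ℤ)} (hA : A.Nonempty) (a : ℝ) (B : Finset (Fin n → ℤ))
    (lam : (Fin n → ℤ) → ℝ) (h0 : ∀ q, 0 ≤ lam q) (h1 : ∑ q ∈ B, lam q ≤ 1) (R : Fin n → ℤ) :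
    (∑ q ∈ B, lam q * gg A a (q + R)) ^ 4 ≤ ∑ q ∈ B, ∑ q' ∈ B, lam q * lam q' * gg A a (q - q') := by
  have hc : (0 : ℝ) < A.card := by exact_mod_cast hA.card_pos
  have hcC : (A.card : ℂ) ≠ 0 := Nat.cast_ne_zero.mpr hA.card_pos.ne'
  set v : (Fin n → ℤ) → ℂ := fun q => (lam q : ℂ) * conj (HH A a (q + R)) with hv
  have hvn : ∀ q, ‖v q‖ ≤ lam q := by
    intro q
    rw [hv]; simp only
    rw [norm_mul, Complex.norm_real, Real.norm_of_nonneg (h0 q), RCLike.norm_conj]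
    calc lam q * ‖HH A a (q + R)‖ ≤ lam q * 1 := mul_le_mul_of_nonneg_left (HH_le _ _ _) (h0 q)
      _ = _ := mul_one _
  set F : (Fin n → ℤ) → ℂ := fun x => ∑ q ∈ B, v q * ph (a * ((x ⬝ᵥ (q + R) : ℤ) : ℝ)) with hF
  have hm : ((∑ q ∈ B, lam q * gg A a (q + R) : ℝ) : ℂ) = (∑ x ∈ A, F x) / (A.card : ℂ) := by
    rw [hF]; simp only
    rw [sum_comm, Finset.sum_div]
    push_cast
    apply sum_congr rfl; intro q _
    rw [← mul_sum, hv]; simp only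
    have h3 : ((gg A a (q + R) : ℝ) : ℂ) = HH A a (q + R) * conj (HH A a (q + R)) := by
      unfold gg; rw [Complex.mul_conj, Complex.normSq_eq_norm_sq]
    rw [h3]
    have h4 : ∑ x ∈ A, ph (a * ((x ⬝ᵥ (q + R) : ℤ) : ℝ)) = HH A a (q + R) * (A.card : ℂ) := by
      unfold HH; field_simp
    rw [h4]; field_simp
  have hm0 : 0 ≤ ∑ q ∈ B, lam q * gg A a (q + R) :=
    sum_nonneg fun q _ => mul_nonneg (h0 q) (gg_nonneg _ _ _)
  -- first Cauchy-Schwarz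
  have hcs1 : (∑ q ∈ B, lam q * gg A a (q + R)) ^ 2 ≤ (∑ x ∈ A, ‖F x‖ ^ 2) / A.card := by
    have h5 : ∑ q ∈ B, lam q * gg A a (q + R) ≤ (∑ x ∈ A, ‖F x‖) / A.card := by
      have h6 : ∑ q ∈ B, lam q * gg A a (q + R) = ‖(∑ x ∈ A, F x) / (A.card : ℂ)‖ := by
        rw [← hm, Complex.norm_real, Real.norm_of_nonneg hm0]
      rw [h6, norm_div, Complex.norm_natCast]
      exact div_le_div_of_nonneg_right (norm_sum_le _ _) hc.le
    have h7 : (∑ x ∈ A, ‖F x‖) ^ 2 ≤ A.card * ∑ x ∈ A, ‖F x‖ ^ 2 := sq_sum_le_card_mul_sum_sq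
    calc (∑ q ∈ B, lam q * gg A a (q + R)) ^ 2 ≤ ((∑ x ∈ A, ‖F x‖) / A.card) ^ 2 :=
          pow_le_pow_left₀ hm0 h5 2
      _ = (∑ x ∈ A, ‖F x‖) ^ 2 / A.card ^ 2 := div_pow _ _ _
      _ ≤ (A.card * ∑ x ∈ A, ‖F x‖ ^ 2) / A.card ^ 2 := by gcongr
      _ = _ := by field_simp
  have hexp : (((∑ x ∈ A, ‖F x‖ ^ 2) / A.card : ℝ) : ℂ) =
      ∑ q ∈ B, ∑ q' ∈ B, v q * conj (v q') * HH A a (q - q') := by
    have h8 : ∀ x ∈ A, ((‖F x‖ ^ 2 : ℝ) : ℂ) =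
        ∑ q ∈ B, ∑ q' ∈ B, v q * conj (v q') * ph (a * ((x ⬝ᵥ (q - q') : ℤ) : ℝ)) := by
      intro x _
      have h9 : ((‖F x‖ ^ 2 : ℝ) : ℂ) = F x * conj (F x) := by
        rw [Complex.mul_conj, Complex.normSq_eq_norm_sq]
      rw [h9, hF]; simp only
      rw [map_sum, sum_mul_sum]
      apply sum_congr rfl; intro q _
      apply sum_congr rfl; intro q' _
      rw [map_mul, ph_conj]
      have h10 : ph (a * ((x ⬝ᵥ (q - q') : ℤ) : ℝ)) =
          ph (a * ((x ⬝ᵥ (q + R) : ℤ) : ℝ)) * ph (-(a * ((x ⬝ᵥ (q' + R) : ℤ) : ℝ))) := by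
        rw [← ph_add]; congr 1
        rw [dotProduct_sub, dotProduct_add, dotProduct_add]
        push_cast; ring
      rw [h10]; ring
    rw [Complex.ofReal_div, Complex.ofReal_sum, sum_congr rfl h8, sum_comm, Finset.sum_div]
    apply sum_congr rfl; intro q _
    rw [sum_comm, Finset.sum_div]
    apply sum_congr rfl; intro q' _
    rw [← mul_sum]
    unfold HH
    rw [Complex.ofReal_natCast]
    ring
  have hE : (∑ x ∈ A, ‖F x‖ ^ 2) / A.card ≤ ∑ q ∈ B, ∑ q' ∈ B, lam q * lam q' * ‖HH A a (q - q')‖ := by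
    have h11 : (∑ x ∈ A, ‖F x‖ ^ 2) / A.card = ‖∑ q ∈ B, ∑ q' ∈ B, v q * conj (v q') * HH A a (q - q')‖ := by
      rw [← hexp, Complex.norm_real, Real.norm_of_nonneg]
      exact div_nonneg (sum_nonneg fun x _ => sq_nonneg _) hc.le
    rw [h11]
    refine (norm_sum_le _ _).trans ?_
    apply sum_le_sum; intro q _
    refine (norm_sum_le _ _).trans ?_
    apply sum_le_sum; intro q' _
    rw [norm_mul, norm_mul, RCLike.norm_conj]
    apply mul_le_mul_of_nonneg_right _ (norm_nonneg _)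
    exact mul_le_mul (hvn q) (hvn q') (norm_nonneg _) (h0 q)
  have hE0 : 0 ≤ (∑ x ∈ A, ‖F x‖ ^ 2) / A.card := div_nonneg (sum_nonneg fun x _ => sq_nonneg _) hc.le
  -- second Cauchy-Schwarz
  have hcs2 : (∑ q ∈ B, ∑ q' ∈ B, lam q * lam q' * ‖HH A a (q - q')‖) ^ 2 ≤
      ∑ q ∈ B, ∑ q' ∈ B, lam q * lam q' * gg A a (q - q') := by
    rw [← sum_product', ← sum_product']
    have h12 := Finset.sum_mul_sq_le_sq_mul_sq (B ×ˢ B)
      (fun p => Real.sqrt (lam p.1 * lam p.2)) (fun p => Real.sqrt (lam p.1 * lam p.2) * ‖HH A a (p.1 - p.2)‖)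
    have h13 : ∀ p : (Fin n → ℤ) × (Fin n → ℤ), Real.sqrt (lam p.1 * lam p.2) ^ 2 = lam p.1 * lam p.2 :=
      fun p => Real.sq_sqrt (mul_nonneg (h0 _) (h0 _))
    have h14 : ∀ p ∈ B ×ˢ B, Real.sqrt (lam p.1 * lam p.2) *
        (Real.sqrt (lam p.1 * lam p.2) * ‖HH A a (p.1 - p.2)‖) = lam p.1 * lam p.2 * ‖HH A a (p.1 - p.2)‖ := by
      intro p _
      rw [← mul_assoc, ← sq, h13]
    have h15 : ∀ p ∈ B ×ˢ B, (Real.sqrt (lam p.1 * lam p.2) * ‖HH A a (p.1 - p.2)‖) ^ 2 =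
        lam p.1 * lam p.2 * gg A a (p.1 - p.2) := by
      intro p _
      rw [mul_pow, h13]; rfl
    rw [sum_congr rfl h14, sum_congr rfl h15, sum_congr rfl (fun p _ => h13 p)] at h12
    refine h12.trans ?_
    have h16 : ∑ p ∈ B ×ˢ B, lam p.1 * lam p.2 ≤ 1 := by
      rw [sum_product]
      simp only
      rw [← sum_mul_sum]
      have := sum_nonneg (s := B) (f := lam) fun q _ => h0 q
      nlinarith
    have h17 : 0 ≤ ∑ p ∈ B ×ˢ B, lam p.1 * lam p.2 * gg A a (p.1 - p.2) :=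
      sum_nonneg fun p _ => mul_nonneg (mul_nonneg (h0 _) (h0 _)) (gg_nonneg _ _ _)
    nlinarith
  calc (∑ q ∈ B, lam q * gg A a (q + R)) ^ 4 = ((∑ q ∈ B, lam q * gg A a (q + R)) ^ 2) ^ 2 := by ring
    _ ≤ ((∑ x ∈ A, ‖F x‖ ^ 2) / A.card) ^ 2 := pow_le_pow_left₀ (sq_nonneg _) hcs1 2
    _ ≤ (∑ q ∈ B, ∑ q' ∈ B, lam q * lam q' * ‖HH A a (q - q')‖) ^ 2 := pow_le_pow_left₀ hE0 hE 2
    _ ≤ _ := hcs2

end Pool.Agent.Lib.MP_0430e4_lc.ACM
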