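import Pool.Agent.Lib.MP_0430e4_lc.ACM.M1

/-!
Multiples theorem (helper30), Lean by helper86: steps (d), (e).
-/

set_option autoImplicit false

open Finset
open scoped ComplexConjugate

namespace Pool.Agent.Lib.MP_0430e4_lc.ACM

open AC

variable {n : ℕ}

theorem shift {M : Type*} [AddCommMonoid M] (B : Finset (Fin n → ℤ)) (b : Fin n → ℤ) (F : (Fin n → ℤ) → M)
    (hF : ∀ q, F q ≠ 0 → q ∈ B ∧ q + b ∈ B) : ∑ q ∈ B, F (q - b) = ∑ q ∈ B, F q := by
  classical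
  have h1 : ∑ q ∈ B, F (q - b) = ∑ p ∈ B.image (fun q => q - b), F p := by
    rw [sum_image]
    intro x _ y _ h
    exact sub_left_injective h
  rw [h1]
  apply sum_congr_of_eq_on_inter
  · intro p _ hp
    by_contra h; exact hp (hF p h).1
  · intro p _ hp
    by_contra h
    apply hp
    rw [mem_image]
    exact ⟨p + b, (hF p h).2, by abel⟩
  · intro p _ _; rfl

theorem ft_energy {A : Finset (Fin n → ℤ)} (hA : A.Nonempty) (a : ℝ) (B : Finset (Fin n → ℤ))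
    (lam : (Fin n → ℤ) → ℝ) :
    (∑ z ∈ A ×ˢ A, ‖ft a B lam z‖ ^ 2) / (A.card : ℝ) ^ 2 =
      ∑ q ∈ B, ∑ q' ∈ B, lam q * lam q' * gg A a (q - q') := by
  have h : (((∑ z ∈ A ×ˢ A, ‖ft a B lam z‖ ^ 2) / (A.card : ℝ) ^ 2 : ℝ) : ℂ) =
      ((∑ q ∈ B, ∑ q' ∈ B, lam q * lam q' * gg A a (q - q') : ℝ) : ℂ) := by
    have h1 : ∀ z ∈ A ×ˢ A, ((‖ft a B lam z‖ ^ 2 : ℝ) : ℂ) =
        ∑ q ∈ B, ∑ q' ∈ B, ((lam q * lam q' : ℝ) : ℂ) * chi a (q - q') z := by
      intro z _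
      have h9 : ((‖ft a B lam z‖ ^ 2 : ℝ) : ℂ) = ft a B lam z * conj (ft a B lam z) := by
        rw [Complex.mul_conj, Complex.normSq_eq_norm_sq]
      rw [h9]
      unfold ft
      rw [map_sum, sum_mul_sum]
      apply sum_congr rfl; intro q _
      apply sum_congr rfl; intro q' _
      rw [map_mul, Complex.conj_ofReal, chi_sub]
      push_cast; ring
    rw [Complex.ofReal_div, Complex.ofReal_sum, sum_congr rfl h1, sum_comm, Finset.sum_div]
    push_cast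
    apply sum_congr rfl; intro q _
    rw [sum_comm, Finset.sum_div]
    apply sum_congr rfl; intro q' _
    rw [← mul_sum, gg_avg hA]
    ring
  exact_mod_cast h

/-- the good part of the translate of `L0` -/
noncomputable def lamz (L0 L1 : (Fin n → ℤ) → ℝ) (c : ℝ) (z : (Fin n → ℤ) × (Fin n → ℤ))
    (q : Fin n → ℤ) : ℝ := if c * L0 (q - dd z) ≤ L1 q then L0 (q - dd z) else 0

theorem core {A : Finset (Fin n → ℤ)} (hA : A.Nonempty) (a : ℝ) (m : ℕ) (B : Finset (Fin n → ℤ))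
    (L0 L1 : (Fin n → ℤ) → ℝ) (h0 : ∀ q, 0 ≤ L0 q) (h1 : ∀ q, 0 ≤ L1 q)
    (s0 : ∑ q ∈ B, L0 q ≤ 1) (s1 : ∑ q ∈ B, L1 q ≤ 1)
    (hB : ∀ q, (L0 q ≠ 0 ∨ L1 q ≠ 0) → q ∈ B ∧ ∀ z ∈ A ×ˢ A, q + dd z ∈ B)
    (R : Fin n → ℤ) (c : ℝ) (hc : 0 ≤ c) (ρ : ℝ) (hρ : 0 ≤ ρ)
    (hmass : ρ ≤ (∑ z ∈ A ×ˢ A, ∑ q ∈ B, lamz L0 L1 c z q * gg A a (q + R)) / (A.card : ℝ) ^ 2) :
    (c / 4) ^ m * ρ ^ (4 * m) ≤ (∑ z ∈ A ×ˢ A, gg A (m * a) (dd z)) / (A.card : ℝ) ^ 2 := by
  have hcard : (0 : ℝ) < A.card := by exact_mod_cast hA.card_pos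
  have hcC : (A.card : ℂ) ≠ 0 := Nat.cast_ne_zero.mpr hA.card_pos.ne'
  have hK : (0 : ℝ) < (A.card : ℝ) ^ 2 := by positivity
  have hPcard : ((A ×ˢ A).card : ℝ) = (A.card : ℝ) ^ 2 := by rw [card_product]; push_cast; ring
  set U : (Fin n → ℤ) → ℝ := fun q => (L0 q + L1 q) / 2 with hU
  have hU0 : ∀ q, 0 ≤ U q := fun q => by rw [hU]; have := h0 q; have := h1 q; simp only; linarith
  have hUB : ∀ q, U q ≠ 0 → q ∈ B ∧ ∀ z ∈ A ×ˢ A, q + dd z ∈ B := by
    intro q hq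
    apply hB
    by_contra hcon
    push Not at hcon
    apply hq
    rw [hU]; simp only
    rw [hcon.1, hcon.2]; norm_num
  have hUs : ∑ q ∈ B, U q ≤ 1 := by
    have : ∑ q ∈ B, U q = (∑ q ∈ B, L0 q + ∑ q ∈ B, L1 q) / 2 := by
      rw [← sum_add_distrib, sum_div]
    rw [this]; linarith
  have hftU : ∀ z, ‖ft a B U z‖ ≤ 1 := fun z => (ft_norm_le a B U hU0 z).trans hUs
  -- one translate
  have hz : ∀ z ∈ A ×ˢ A, (c / 4) ^ m * (∑ q ∈ B, lamz L0 L1 c z q * gg A a (q + R)) ^ (4 * m) ≤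
      ((∑ z' ∈ A ×ˢ A, chi a (dd z) z' ^ m * ((‖ft a B U z'‖ ^ (2 * m) : ℝ) : ℂ)) / (A.card : ℂ) ^ 2).re := by
    intro z hzA
    set lam : (Fin n → ℤ) → ℝ := lamz L0 L1 c z with hlam
    have hl0 : ∀ q, 0 ≤ lam q := by
      intro q; rw [hlam]; unfold lamz; split_ifs
      · exact h0 _
      · exact le_rfl
    have hl1 : ∑ q ∈ B, lam q ≤ 1 := by
      calc ∑ q ∈ B, lam q ≤ ∑ q ∈ B, L0 (q - dd z) := by
            apply sum_le_sum; intro q _
            rw [hlam]; unfold lamz; split_ifs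
            · exact le_rfl
            · exact h0 _
        _ = ∑ q ∈ B, L0 q := shift B (dd z) L0 fun q hq =>
            ⟨(hB q (Or.inl hq)).1, (hB q (Or.inl hq)).2 z hzA⟩
        _ ≤ 1 := s0
    have hen := energy hA a B lam hl0 hl1 R
    rw [← ft_energy hA] at hen
    -- Jensen
    have hj : ((∑ z' ∈ A ×ˢ A, ‖ft a B lam z'‖ ^ 2) / (A.card : ℝ) ^ 2) ^ m ≤
        (∑ z' ∈ A ×ˢ A, (‖ft a B lam z'‖ ^ 2) ^ m) / (A.card : ℝ) ^ 2 := by
      have := Real.pow_arith_mean_le_arith_mean_pow (A ×ˢ A) (fun _ => 1 / (A.card : ℝ) ^ 2)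
        (fun z' => ‖ft a B lam z'‖ ^ 2) (fun _ _ => by positivity)
        (by rw [sum_const, nsmul_eq_mul, hPcard]; field_simp) (fun _ _ => by positivity) m
      have e1 : ∑ z' ∈ A ×ˢ A, 1 / (A.card : ℝ) ^ 2 * ‖ft a B lam z'‖ ^ 2 =
          (∑ z' ∈ A ×ˢ A, ‖ft a B lam z'‖ ^ 2) / (A.card : ℝ) ^ 2 := by
        rw [← mul_sum]; ring
      have e2 : ∑ z' ∈ A ×ˢ A, 1 / (A.card : ℝ) ^ 2 * (‖ft a B lam z'‖ ^ 2) ^ m =
          (∑ z' ∈ A ×ˢ A, (‖ft a B lam z'‖ ^ 2) ^ m) / (A.card : ℝ) ^ 2 := by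
        rw [← mul_sum]; ring
      rw [e1, e2] at this
      exact this
    have hm0 : 0 ≤ ∑ q ∈ B, lam q * gg A a (q + R) :=
      sum_nonneg fun q _ => mul_nonneg (hl0 q) (gg_nonneg _ _ _)
    have hstep1 : (∑ q ∈ B, lam q * gg A a (q + R)) ^ (4 * m) ≤
        (∑ z' ∈ A ×ˢ A, (‖ft a B lam z'‖ ^ 2) ^ m) / (A.card : ℝ) ^ 2 := by
      rw [pow_mul]
      exact (pow_le_pow_left₀ (by positivity) hen m).trans hj
    -- monotonicity
    have hmono := moment_mono hA a m B (fun q => 1 / 2 * lam q) (fun q => c / 2 * lam q)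
      (fun q => U (q - dd z)) U
      (fun q => mul_nonneg (by norm_num) (hl0 q)) (fun q => mul_nonneg (by linarith) (hl0 q))
      (fun q => by
        rw [hlam, hU]; unfold lamz; simp only
        have := h0 (q - dd z); have := h1 (q - dd z)
        split_ifs <;> linarith)
      (fun q => by
        rw [hlam, hU]; unfold lamz; simp only
        have := h0 q; have := h1 q
        split_ifs with hcond
        · linarith
        · linarith)
    have hl : ((∑ z' ∈ A ×ˢ A, ft a B (fun q => 1 / 2 * lam q) z' ^ m *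
        conj (ft a B (fun q => c / 2 * lam q) z') ^ m) / (A.card : ℂ) ^ 2).re =
        (c / 4) ^ m * ((∑ z' ∈ A ×ˢ A, (‖ft a B lam z'‖ ^ 2) ^ m) / (A.card : ℝ) ^ 2) := by
      have e3 : ∀ (r : ℝ) z', ft a B (fun q => r * lam q) z' = (r : ℂ) * ft a B lam z' := by
        intro r z'
        unfold ft
        rw [mul_sum]
        apply sum_congr rfl; intro q _
        push_cast; ring
      have e4 : ∀ z' ∈ A ×ˢ A, ft a B (fun q => 1 / 2 * lam q) z' ^ m *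
          conj (ft a B (fun q => c / 2 * lam q) z') ^ m =
          (((c / 4) ^ m * (‖ft a B lam z'‖ ^ 2) ^ m : ℝ) : ℂ) := by
        intro z' _
        rw [e3, e3, map_mul, Complex.conj_ofReal, mul_pow, mul_pow]
        have h9 : ((‖ft a B lam z'‖ ^ 2 : ℝ) : ℂ) = ft a B lam z' * conj (ft a B lam z') := by
          rw [Complex.mul_conj, Complex.normSq_eq_norm_sq]
        rw [Complex.ofReal_mul, Complex.ofReal_pow, Complex.ofReal_pow (‖ft a B lam z'‖ ^ 2), h9, mul_pow]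
        have h10 : ((c / 4 : ℝ) : ℂ) ^ m = ((1 / 2 : ℝ) : ℂ) ^ m * ((c / 2 : ℝ) : ℂ) ^ m := by
          rw [← mul_pow]; congr 1; push_cast; ring
        rw [h10]; ring
      rw [sum_congr rfl e4, ← Complex.ofReal_sum, ← Complex.ofReal_natCast, ← Complex.ofReal_pow,
        ← Complex.ofReal_div, Complex.ofReal_re, ← mul_sum, mul_div_assoc]
    have hr : ((∑ z' ∈ A ×ˢ A, ft a B (fun q => U (q - dd z)) z' ^ m *
        conj (ft a B U z') ^ m) / (A.card : ℂ) ^ 2) =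
        ((∑ z' ∈ A ×ˢ A, chi a (dd z) z' ^ m * ((‖ft a B U z'‖ ^ (2 * m) : ℝ) : ℂ)) / (A.card : ℂ) ^ 2) := by
      congr 1
      apply sum_congr rfl; intro z' _
      have e5 : ft a B (fun q => U (q - dd z)) z' = chi a (dd z) z' * ft a B U z' := by
        unfold ft
        rw [mul_sum]
        have := shift B (dd z) (fun q => (U q : ℂ) * chi a (q + dd z) z') (fun q hq => by
          have hq' : U q ≠ 0 := by
            intro h; apply hq; rw [h]; simp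
          exact ⟨(hUB q hq').1, (hUB q hq').2 z hzA⟩)
        simp only [sub_add_cancel] at this
        rw [this]
        apply sum_congr rfl; intro q _
        rw [chi_add]; ring
      rw [e5, mul_pow, mul_assoc, ← mul_pow, Complex.mul_conj, Complex.normSq_eq_norm_sq, ← Complex.ofReal_pow, ← pow_mul]
    rw [hl, hr] at hmono
    refine le_trans ?_ hmono
    exact mul_le_mul_of_nonneg_left hstep1 (pow_nonneg (by linarith) _)
  -- average over z
  have hsum : (∑ z ∈ A ×ˢ A, (c / 4) ^ m * (∑ q ∈ B, lamz L0 L1 c z q * gg A a (q + R)) ^ (4 * m)) / (A.card : ℝ) ^ 2 ≤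
      (∑ z ∈ A ×ˢ A, gg A (m * a) (dd z)) / (A.card : ℝ) ^ 2 := by
    apply div_le_div_of_nonneg_right _ hK.le
    refine (sum_le_sum hz).trans ?_
    rw [← Complex.re_sum]
    have e6 : ∑ z ∈ A ×ˢ A, (∑ z' ∈ A ×ˢ A, chi a (dd z) z' ^ m * ((‖ft a B U z'‖ ^ (2 * m) : ℝ) : ℂ)) / (A.card : ℂ) ^ 2 =
        ((∑ z' ∈ A ×ˢ A, gg A (m * a) (dd z') * ‖ft a B U z'‖ ^ (2 * m) : ℝ) : ℂ) := by
      rw [← sum_div, sum_comm, sum_div]
      push_cast
      apply sum_congr rfl; intro z' _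
      rw [← sum_mul, gg_avg hA]
      have e7 : ∀ z ∈ A ×ˢ A, chi a (dd z) z' ^ m = chi (m * a) (dd z') z := by
        intro z _
        rw [← chi_nsmul]
        unfold chi
        congr 1
        rw [smul_dotProduct, dotProduct_comm (dd z')]
        push_cast [nsmul_eq_mul]; ring
      rw [sum_congr rfl e7]
      push_cast; ring
    rw [e6, Complex.ofReal_re]
    apply sum_le_sum; intro z' _
    calc gg A (m * a) (dd z') * ‖ft a B U z'‖ ^ (2 * m) ≤ gg A (m * a) (dd z') * 1 := by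
          apply mul_le_mul_of_nonneg_left _ (gg_nonneg _ _ _)
          exact pow_le_one₀ (norm_nonneg _) (hftU z')
      _ = _ := mul_one _
  refine le_trans ?_ hsum
  rw [← mul_sum, mul_div_assoc]
  apply mul_le_mul_of_nonneg_left _ (pow_nonneg (by linarith) _)
  have hmz0 : ∀ z ∈ A ×ˢ A, 0 ≤ ∑ q ∈ B, lamz L0 L1 c z q * gg A a (q + R) := by
    intro z _
    apply sum_nonneg; intro q _
    apply mul_nonneg _ (gg_nonneg _ _ _)
    unfold lamz; split_ifs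
    · exact h0 _
    · exact le_rfl
  have hj := Real.pow_arith_mean_le_arith_mean_pow (A ×ˢ A) (fun _ => 1 / (A.card : ℝ) ^ 2)
    (fun z => ∑ q ∈ B, lamz L0 L1 c z q * gg A a (q + R)) (fun _ _ => by positivity)
    (by rw [sum_const, nsmul_eq_mul, hPcard]; field_simp) hmz0 (4 * m)
  rw [← mul_sum, ← mul_sum] at hj
  calc ρ ^ (4 * m) ≤ ((∑ z ∈ A ×ˢ A, ∑ q ∈ B, lamz L0 L1 c z q * gg A a (q + R)) / (A.card : ℝ) ^ 2) ^ (4 * m) :=
        pow_le_pow_left₀ hρ hmass _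
    _ = (1 / (A.card : ℝ) ^ 2 * ∑ z ∈ A ×ˢ A, ∑ q ∈ B, lamz L0 L1 c z q * gg A a (q + R)) ^ (4 * m) := by
        congr 1; ring
    _ ≤ _ := hj
    _ = _ := by ring

end Pool.Agent.Lib.MP_0430e4_lc.ACM
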