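import Pool.Agent.Lib.MP_0430e4_lc.ACM.M2

/-!
Multiples theorem (helper30), Lean by helper86: the walk and the pigeonhole, steps (a), (b).
-/

set_option autoImplicit false

open Finset
open scoped ComplexConjugate

namespace Pool.Agent.Lib.MP_0430e4_lc.ACM

open AC

variable {n : ℕ}

/-- the box -/
noncomputable def bx (n N : ℕ) : Finset (Fin n → ℤ) := Fintype.piFinset (fun _ => Finset.Icc (-(N : ℤ)) N)

theorem mem_bx {N : ℕ} {q : Fin n → ℤ} : q ∈ bx n N ↔ ∀ i, -(N : ℤ) ≤ q i ∧ q i ≤ N := by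
  unfold bx; simp [Fintype.mem_piFinset]

theorem card_bx (n N : ℕ) : (bx n N).card = (2 * N + 1) ^ n := by
  unfold bx
  rw [Fintype.card_piFinset]
  simp only [Int.card_Icc, prod_const, card_univ, Fintype.card_fin]
  congr 1
  omega

theorem bx_mono {N M : ℕ} (h : N ≤ M) {q : Fin n → ℤ} (hq : q ∈ bx n N) : q ∈ bx n M := by
  rw [mem_bx] at *
  intro i
  have := hq i
  have h' : (N : ℤ) ≤ M := by exact_mod_cast h
  omega

/-- law of the walk -/
noncomputable def LL (A : Finset (Fin n → ℤ)) : ℕ → (Fin n → ℤ) → ℝ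
  | 0 => fun q => if q = 0 then 1 else 0
  | (N + 1) => fun q => (∑ z ∈ A ×ˢ A, LL A N (q - dd z)) / (A.card : ℝ) ^ 2

theorem LL_nonneg (A : Finset (Fin n → ℤ)) (N : ℕ) (q : Fin n → ℤ) : 0 ≤ LL A N q := by
  induction N generalizing q with
  | zero => unfold LL; split_ifs <;> norm_num
  | succ N ih => unfold LL; exact div_nonneg (sum_nonneg fun z _ => ih _) (by positivity)

/-- words with entries `0`, `1` -/
def Zo (A : Finset (Fin n → ℤ)) : Prop := ∀ x ∈ A, ∀ i, x i = 0 ∨ x i = 1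

theorem dd_bx {A : Finset (Fin n → ℤ)} (h01 : Zo A) {z : (Fin n → ℤ) × (Fin n → ℤ)} (hz : z ∈ A ×ˢ A) (i : Fin n) :
    -1 ≤ dd z i ∧ dd z i ≤ 1 := by
  rw [mem_product] at hz
  have h1 := h01 z.1 hz.1 i
  have h2 := h01 z.2 hz.2 i
  unfold dd
  rw [Pi.sub_apply]
  omega

theorem bx_add {A : Finset (Fin n → ℤ)} (h01 : Zo A) {z : (Fin n → ℤ) × (Fin n → ℤ)} (hz : z ∈ A ×ˢ A) {N : ℕ}
    {q : Fin n → ℤ} (hq : q ∈ bx n N) : q + dd z ∈ bx n (N + 1) := by
  rw [mem_bx] at *
  intro i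
  have h1 := hq i
  have h2 := dd_bx h01 hz i
  rw [Pi.add_apply]
  push_cast
  omega

theorem LL_supp {A : Finset (Fin n → ℤ)} (h01 : Zo A) (N : ℕ) {q : Fin n → ℤ} (h : LL A N q ≠ 0) : q ∈ bx n N := by
  induction N generalizing q with
  | zero =>
    unfold LL at h
    have : q = 0 := by by_contra hq; simp [hq] at h
    subst this
    rw [mem_bx]; intro i; simp
  | succ N ih =>
    unfold LL at h
    have h1 : ∑ z ∈ A ×ˢ A, LL A N (q - dd z) ≠ 0 := by
      intro h2; rw [h2] at h; simp at h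
    obtain ⟨z, hz, hz2⟩ := exists_ne_zero_of_sum_ne_zero h1
    have := bx_add h01 hz (ih hz2)
    rwa [sub_add_cancel] at this

section walk

variable {A : Finset (Fin n → ℤ)} (hA : A.Nonempty) (h01 : Zo A) (T : ℕ)

include h01 in
theorem LL_step {M : Type*} [AddCommGroup M] [Module ℝ M] (φ : (Fin n → ℤ) → M) {N : ℕ} (hN : N ≤ T) :
    ∑ q ∈ bx n (T + 1), LL A (N + 1) q • φ q =
      ((A.card : ℝ) ^ 2)⁻¹ • ∑ z ∈ A ×ˢ A, ∑ p ∈ bx n (T + 1), LL A N p • φ (p + dd z) := by
  have h1 : ∀ q ∈ bx n (T + 1), LL A (N + 1) q • φ q =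
      ((A.card : ℝ) ^ 2)⁻¹ • ∑ z ∈ A ×ˢ A, LL A N (q - dd z) • φ q := by
    intro q _
    rw [← sum_smul, smul_smul]
    congr 1
    show (∑ z ∈ A ×ˢ A, LL A N (q - dd z)) / (A.card : ℝ) ^ 2 = _
    rw [div_eq_inv_mul]
  rw [sum_congr rfl h1, ← smul_sum, sum_comm]
  congr 1
  apply sum_congr rfl; intro z hz
  have := shift (bx n (T + 1)) (dd z) (fun p => LL A N p • φ (p + dd z)) (fun q hq => by
    have hq' : LL A N q ≠ 0 := by intro h; apply hq; rw [h, zero_smul]
    have h3 := LL_supp h01 N hq'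
    exact ⟨bx_mono (by omega) h3, bx_mono (by omega) (bx_add h01 hz h3)⟩)
  simp only [sub_add_cancel] at this
  exact this

include hA h01 in
theorem LL_mass {N : ℕ} (hN : N ≤ T + 1) : ∑ q ∈ bx n (T + 1), LL A N q = 1 := by
  have hc : (A.card : ℝ) ≠ 0 := Nat.cast_ne_zero.mpr hA.card_pos.ne'
  induction N with
  | zero =>
    unfold LL
    rw [sum_ite_eq']
    rw [if_pos]
    rw [mem_bx]; intro i; simp; omega
  | succ N ih =>
    have h1 := LL_step h01 T (fun _ => (1 : ℝ)) (N := N) (by omega)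
    simp only [smul_eq_mul, mul_one] at h1
    rw [h1, sum_const, ih (by omega), nsmul_eq_mul, card_product]
    push_cast
    field_simp

/-- expectation of `g` after `k` more steps -/
noncomputable def GG (A : Finset (Fin n → ℤ)) (T : ℕ) (a : ℝ) (k : ℕ) (q : Fin n → ℤ) : ℝ :=
  ∑ r ∈ bx n (T + 1), LL A k r * gg A a (q + r)

variable (a : ℝ)

theorem GG_nonneg (k : ℕ) (q : Fin n → ℤ) : 0 ≤ GG A T a k q :=
  sum_nonneg fun _ _ => mul_nonneg (LL_nonneg _ _ _) (gg_nonneg _ _ _)

include hA h01 in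
theorem GG_le {k : ℕ} (hk : k ≤ T + 1) (q : Fin n → ℤ) : GG A T a k q ≤ 1 := by
  rw [← LL_mass hA h01 T hk]
  apply sum_le_sum; intro r _
  calc LL A k r * gg A a (q + r) ≤ LL A k r * 1 := mul_le_mul_of_nonneg_left (gg_le _ _ _) (LL_nonneg _ _ _)
    _ = _ := mul_one _

include h01 in
theorem GG_step {k : ℕ} (hk : k ≤ T) (q : Fin n → ℤ) :
    GG A T a (k + 1) q = ((A.card : ℝ) ^ 2)⁻¹ * ∑ z ∈ A ×ˢ A, GG A T a k (q + dd z) := by
  have h1 := LL_step h01 T (fun r => gg A a (q + r)) hk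
  simp only [smul_eq_mul] at h1
  unfold GG
  rw [h1]
  congr 1
  apply sum_congr rfl; intro z _
  apply sum_congr rfl; intro p _
  congr 2
  abel

theorem GG_zero (q : Fin n → ℤ) : GG A T a 0 q = gg A a q := by
  unfold GG LL
  simp only [ite_mul, one_mul, zero_mul]
  rw [sum_ite_eq' (bx n (T + 1)) 0 (fun r => gg A a (q + r)), if_pos, add_zero]
  rw [mem_bx]; intro i; simp; omega

include h01 in
/-- the mass of the tilted law -/
theorem WW {N : ℕ} (hN : N ≤ T) :
    ∑ p ∈ bx n (T + 1), LL A N p * GG A T a (T - N) p = GG A T a T 0 := by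
  induction N with
  | zero =>
    unfold LL
    simp only [ite_mul, one_mul, zero_mul]
    rw [sum_ite_eq' (bx n (T + 1)) 0 (fun p => GG A T a (T - 0) p), if_pos]
    · rfl
    · rw [mem_bx]; intro i; simp; omega
  | succ N ih =>
    rw [← ih (by omega)]
    have h1 := LL_step h01 T (fun p => GG A T a (T - (N + 1)) p) (N := N) (by omega)
    simp only [smul_eq_mul] at h1
    rw [h1, sum_comm, mul_sum]
    apply sum_congr rfl; intro p _
    rw [show T - N = T - (N + 1) + 1 by omega, GG_step h01 T a (by omega)]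
    rw [← mul_sum]
    ring

/-- entropy of the tilted law against the walk -/
noncomputable def aN (A : Finset (Fin n → ℤ)) (T : ℕ) (a : ℝ) (N : ℕ) : ℝ :=
  ∑ p ∈ bx n (T + 1), LL A N p * GG A T a (T - N) p * Real.log (LL A N p)

theorem aN_zero : aN A T a 0 = 0 := by
  unfold aN
  apply sum_eq_zero; intro p _
  unfold LL
  split_ifs <;> simp

theorem aN_top (hZ : 0 < GG A T a T 0) (h01 : Zo A) :
    - aN A T a T ≤ GG A T a T 0 * Real.log ((bx n (T + 1)).card / GG A T a T 0) := by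
  set Z := GG A T a T 0 with hZdef
  have hBpos : 0 < ((bx n (T + 1)).card : ℝ) := by
    rw [card_bx]; positivity
  set M : ℝ := (bx n (T + 1)).card / Z with hM
  have hMpos : 0 < M := div_pos hBpos hZ
  have hWW := WW h01 T a (N := T) le_rfl
  rw [Nat.sub_self] at hWW
  have h1 : ∀ p ∈ bx n (T + 1), -(LL A T p * GG A T a (T - T) p * Real.log (LL A T p)) ≤
      LL A T p * GG A T a 0 p * (Real.log M - 1) + 1 / M := by
    intro p _
    rw [Nat.sub_self]
    have hL := LL_nonneg A T p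
    have hG0 := GG_nonneg (A := A) T a 0 p
    have hG1 : GG A T a 0 p ≤ 1 := by rw [GG_zero]; exact gg_le _ _ _
    rcases hL.eq_or_lt with h | h
    · rw [← h]; simp; positivity
    · have h2 : Real.log (1 / (LL A T p * M)) ≤ 1 / (LL A T p * M) - 1 :=
        Real.log_le_sub_one_of_pos (by positivity)
      rw [Real.log_div one_ne_zero (by positivity), Real.log_one, Real.log_mul h.ne' hMpos.ne'] at h2
      have h3 : -Real.log (LL A T p) ≤ Real.log M + 1 / (LL A T p * M) - 1 := by linarith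
      have h4 : LL A T p * GG A T a 0 p * (1 / (LL A T p * M)) = GG A T a 0 p / M := by
        field_simp
      have h5 : GG A T a 0 p / M ≤ 1 / M := div_le_div_of_nonneg_right hG1 hMpos.le
      have h6 := mul_le_mul_of_nonneg_left h3 (mul_nonneg h.le hG0)
      nlinarith
  have h2 : -aN A T a T ≤ ∑ p ∈ bx n (T + 1), (LL A T p * GG A T a 0 p * (Real.log M - 1) + 1 / M) := by
    unfold aN
    rw [← sum_neg_distrib]
    exact sum_le_sum h1
  refine h2.trans (le_of_eq ?_)
  rw [sum_add_distrib, ← sum_mul, hWW, sum_const, nsmul_eq_mul, hM]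
  have : ((bx n (T + 1)).card : ℝ) * (1 / (((bx n (T + 1)).card : ℝ) / Z)) = Z := by
    field_simp
  rw [this]
  ring

theorem exists_N (hT : 1 ≤ T) (hZ : 0 < GG A T a T 0) (h01 : Zo A) :
    ∃ N < T, aN A T a N - aN A T a (N + 1) ≤
      GG A T a T 0 * Real.log ((bx n (T + 1)).card / GG A T a T 0) / T := by
  by_contra hcon
  push Not at hcon
  have hT' : (0 : ℝ) < T := by exact_mod_cast hT
  set κ := GG A T a T 0 * Real.log ((bx n (T + 1)).card / GG A T a T 0) / T with hκ
  have h1 : ∑ N ∈ range T, κ < ∑ N ∈ range T, (aN A T a N - aN A T a (N + 1)) := by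
    apply sum_lt_sum_of_nonempty
    · exact nonempty_range_iff.mpr (by omega)
    · intro N hN; exact hcon N (mem_range.mp hN)
  rw [sum_range_sub', aN_zero, sum_const, card_range, nsmul_eq_mul] at h1
  have h2 := aN_top T a hZ h01
  have h3 : (T : ℝ) * κ = GG A T a T 0 * Real.log ((bx n (T + 1)).card / GG A T a T 0) := by
    rw [hκ]; field_simp
  rw [h3] at h1
  linarith

end walk

end Pool.Agent.Lib.MP_0430e4_lc.ACM
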