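import Pool.Agent.Lib.MP_0430e4_lc.ACM.M3

/-!
Multiples theorem (helper30), Lean by helper86: the good set, the quantitative theorem, `MultS`.
-/

set_option autoImplicit false

open Finset
open scoped ComplexConjugate

namespace Pool.Agent.Lib.MP_0430e4_lc.ACM

open AC

variable {n : ℕ}

/-- the quadruple correlation -/
noncomputable def QQ (A : Finset (Fin n → ℤ)) (a : ℝ) : ℝ :=
  (∑ z ∈ A ×ˢ A, gg A a (dd z)) / (A.card : ℝ) ^ 2

theorem QQ_nonneg (A : Finset (Fin n → ℤ)) (a : ℝ) : 0 ≤ QQ A a :=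
  div_nonneg (sum_nonneg fun _ _ => gg_nonneg _ _ _) (by positivity)

section walk

variable {A : Finset (Fin n → ℤ)} (hA : A.Nonempty) (h01 : Zo A) (T : ℕ) (a : ℝ)

include h01 in
theorem diff_aN {N : ℕ} (hN : N < T) :
    aN A T a N - aN A T a (N + 1) = ((A.card : ℝ) ^ 2)⁻¹ * ∑ z ∈ A ×ˢ A, ∑ p ∈ bx n (T + 1),
      LL A N p * GG A T a (T - (N + 1)) (p + dd z) *
        (Real.log (LL A N p) - Real.log (LL A (N + 1) (p + dd z))) := by
  have h1 : aN A T a N = ((A.card : ℝ) ^ 2)⁻¹ * ∑ z ∈ A ×ˢ A, ∑ p ∈ bx n (T + 1),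
      LL A N p * GG A T a (T - (N + 1)) (p + dd z) * Real.log (LL A N p) := by
    unfold aN
    rw [sum_comm, mul_sum]
    apply sum_congr rfl; intro p _
    rw [show T - N = T - (N + 1) + 1 by omega, GG_step h01 T a (by omega), ← sum_mul, ← mul_sum]
    ring
  have h2 : aN A T a (N + 1) = ((A.card : ℝ) ^ 2)⁻¹ * ∑ z ∈ A ×ˢ A, ∑ p ∈ bx n (T + 1),
      LL A N p * GG A T a (T - (N + 1)) (p + dd z) * Real.log (LL A (N + 1) (p + dd z)) := by
    unfold aN
    have h3 := LL_step h01 T (fun p => GG A T a (T - (N + 1)) p * Real.log (LL A (N + 1) p)) (N := N) (by omega)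
    simp only [smul_eq_mul] at h3
    simp only [← mul_assoc] at h3 ⊢
    exact h3
  rw [h1, h2, ← mul_sub, ← sum_sub_distrib]
  congr 1
  apply sum_congr rfl; intro z _
  rw [← sum_sub_distrib]
  apply sum_congr rfl; intro p _
  ring

include hA in
theorem LL_succ_pos {N : ℕ} {p : Fin n → ℤ} (hp : 0 < LL A N p) {z : (Fin n → ℤ) × (Fin n → ℤ)}
    (hz : z ∈ A ×ˢ A) : 0 < LL A (N + 1) (p + dd z) := by
  have hc : (0 : ℝ) < A.card := by exact_mod_cast hA.card_pos
  show 0 < (∑ z' ∈ A ×ˢ A, LL A N (p + dd z - dd z')) / (A.card : ℝ) ^ 2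
  apply div_pos _ (by positivity)
  apply sum_pos' (fun z' _ => LL_nonneg _ _ _)
  exact ⟨z, hz, by rwa [add_sub_cancel_right]⟩

include hA h01 in
/-- the good set has at least half of the mass -/
theorem good {N : ℕ} (hN : N < T) (hZ : 0 < GG A T a T 0) (κ : ℝ)
    (hκ : aN A T a N - aN A T a (N + 1) ≤ GG A T a T 0 * κ) (E : ℝ) (hE0 : 0 < E)
    (hE : 2 * (κ - Real.log (GG A T a T 0) + 1) ≤ E) :
    GG A T a T 0 / 2 ≤ ((A.card : ℝ) ^ 2)⁻¹ * ∑ z ∈ A ×ˢ A, ∑ p ∈ bx n (T + 1),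
      (if Real.exp (-E) * LL A N p ≤ LL A (N + 1) (p + dd z) then LL A N p else 0) *
        GG A T a (T - (N + 1)) (p + dd z) := by
  have hc : (0 : ℝ) < A.card := by exact_mod_cast hA.card_pos
  have hK : (0 : ℝ) < ((A.card : ℝ) ^ 2)⁻¹ := by positivity
  set Z := GG A T a T 0 with hZdef
  set G := GG A T a (T - (N + 1)) with hG
  have hG0 : ∀ q, 0 ≤ G q := fun q => GG_nonneg T a _ q
  have hG1 : ∀ q, G q ≤ 1 := fun q => GG_le hA h01 T a (by omega) q
  have hZ1 : Z ≤ 1 := GG_le hA h01 T a (by omega) 0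
  have hlogZ : Real.log Z ≤ 0 := Real.log_nonpos hZ.le hZ1
  -- pointwise inequality
  have key : ∀ z ∈ A ×ˢ A, ∀ p ∈ bx n (T + 1),
      E * (LL A N p * G (p + dd z)) - E * ((if Real.exp (-E) * LL A N p ≤ LL A (N + 1) (p + dd z) then LL A N p else 0) *
        G (p + dd z)) ≤ LL A N p * G (p + dd z) * (Real.log (LL A N p) - Real.log (LL A (N + 1) (p + dd z))) -
        Real.log Z * (LL A N p * G (p + dd z)) + Z * LL A (N + 1) (p + dd z) := by
    intro z hz p _
    have hL0 := LL_nonneg A N p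
    have hL1 := LL_nonneg A (N + 1) (p + dd z)
    rcases hL0.eq_or_lt with h | h
    · rw [← h]; simp; positivity
    · have hs := LL_succ_pos hA h hz
      set x := LL A N p with hx
      set y := LL A (N + 1) (p + dd z) with hy
      set γ := G (p + dd z) with hγ
      have hγ0 : 0 ≤ γ := hG0 _
      have hγ1 : γ ≤ 1 := hG1 _
      -- `Y + exp(-Y) ≥ 0`, with `exp (-Y) = Z y / x`
      set Y := Real.log x - Real.log y - Real.log Z with hY
      have hexpY : Real.exp (-Y) = Z * y / x := by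
        rw [hY, show -(Real.log x - Real.log y - Real.log Z) = Real.log Z + Real.log y - Real.log x by ring,
          Real.exp_sub, Real.exp_add, Real.exp_log hZ, Real.exp_log hs, Real.exp_log h]
      have hY1 : -Y + 1 ≤ Real.exp (-Y) := Real.add_one_le_exp (-Y)
      have hmul : x * γ * Real.exp (-Y) ≤ Z * y := by
        rw [hexpY]
        calc x * γ * (Z * y / x) = γ * (Z * y) := by field_simp
          _ ≤ 1 * (Z * y) := mul_le_mul_of_nonneg_right hγ1 (by positivity)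
          _ = _ := one_mul _
      have hxγ : 0 ≤ x * γ := mul_nonneg h.le hγ0
      split_ifs with hcond
      · -- good: left side is zero
        have h2 : 0 ≤ x * γ * (Y + Real.exp (-Y)) := mul_nonneg hxγ (by linarith)
        have h3 : x * γ * (Real.log x - Real.log y) - Real.log Z * (x * γ) = x * γ * Y := by rw [hY]; ring
        rw [h3]
        nlinarith
      · -- bad: `Y ≥ E`
        push Not at hcond
        have h4 : Real.log y < -E + Real.log x := by
          have := Real.log_lt_log hs hcond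
          rwa [Real.log_mul (Real.exp_pos _).ne' h.ne', Real.log_exp] at this
        have h5 : E ≤ Y := by rw [hY]; linarith
        have h3 : x * γ * (Real.log x - Real.log y) - Real.log Z * (x * γ) = x * γ * Y := by rw [hY]; ring
        rw [h3]
        have h6 : x * γ * E ≤ x * γ * Y := mul_le_mul_of_nonneg_left h5 hxγ
        have h7 : 0 ≤ Z * y := by positivity
        nlinarith
  have hsum : ∑ z ∈ A ×ˢ A, ∑ p ∈ bx n (T + 1),
      (E * (LL A N p * G (p + dd z)) - E * ((if Real.exp (-E) * LL A N p ≤ LL A (N + 1) (p + dd z) then LL A N p else 0) *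
        G (p + dd z))) ≤ ∑ z ∈ A ×ˢ A, ∑ p ∈ bx n (T + 1), (LL A N p * G (p + dd z) * (Real.log (LL A N p) - Real.log (LL A (N + 1) (p + dd z))) -
        Real.log Z * (LL A N p * G (p + dd z)) + Z * LL A (N + 1) (p + dd z)) :=
    sum_le_sum fun z hz => sum_le_sum fun p hp => key z hz p hp
  simp only [sum_add_distrib, sum_sub_distrib, ← mul_sum] at hsum
  -- the total mass
  have hmass : ((A.card : ℝ) ^ 2)⁻¹ * ∑ z ∈ A ×ˢ A, ∑ p ∈ bx n (T + 1), LL A N p * G (p + dd z) = Z := by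
    have h1 := WW h01 T a (N := N) (by omega)
    rw [← hZdef] at h1
    rw [← h1, sum_comm, mul_sum]
    apply sum_congr rfl; intro p _
    rw [show T - N = T - (N + 1) + 1 by omega, GG_step h01 T a (by omega), ← mul_sum]
    ring
  have hnext : ((A.card : ℝ) ^ 2)⁻¹ * ∑ z ∈ A ×ˢ A, ∑ p ∈ bx n (T + 1), LL A (N + 1) (p + dd z) ≤ 1 := by
    have h1 : ∀ z ∈ A ×ˢ A, ∑ p ∈ bx n (T + 1), LL A (N + 1) (p + dd z) ≤ 1 := by
      intro z _
      have h2 : ∑ p ∈ bx n (T + 1), LL A (N + 1) (p + dd z) = ∑ q ∈ (bx n (T + 1)).image (fun p => p + dd z), LL A (N + 1) q := by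
        rw [sum_image]
        intro x _ y _ h; exact add_left_injective _ h
      rw [h2, ← LL_mass hA h01 T (N := N + 1) (by omega),
        ← sum_filter_of_ne (p := fun q => q ∈ bx n (T + 1)) (fun q _ hq => bx_mono (by omega) (LL_supp h01 _ hq))]
      apply sum_le_sum_of_subset_of_nonneg
      · intro q hq; exact (mem_filter.mp hq).2
      · intro q _ _; exact LL_nonneg _ _ _
    calc ((A.card : ℝ) ^ 2)⁻¹ * ∑ z ∈ A ×ˢ A, ∑ p ∈ bx n (T + 1), LL A (N + 1) (p + dd z)
        ≤ ((A.card : ℝ) ^ 2)⁻¹ * ∑ z ∈ A ×ˢ A, (1 : ℝ) := mul_le_mul_of_nonneg_left (sum_le_sum h1) hK.le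
      _ = 1 := by
          rw [sum_const, nsmul_eq_mul, card_product]; push_cast; field_simp
  have hd := diff_aN h01 T a hN
  rw [hd] at hκ
  set S1 := ∑ z ∈ A ×ˢ A, ∑ p ∈ bx n (T + 1), LL A N p * G (p + dd z) with hS1
  set S2 := ∑ z ∈ A ×ˢ A, ∑ p ∈ bx n (T + 1), (if Real.exp (-E) * LL A N p ≤ LL A (N + 1) (p + dd z) then LL A N p else 0) *
        G (p + dd z) with hS2
  set S3 := ∑ z ∈ A ×ˢ A, ∑ p ∈ bx n (T + 1), LL A N p * G (p + dd z) * (Real.log (LL A N p) - Real.log (LL A (N + 1) (p + dd z))) with hS3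
  set S4 := ∑ z ∈ A ×ˢ A, ∑ p ∈ bx n (T + 1), LL A (N + 1) (p + dd z) with hS4
  set k := ((A.card : ℝ) ^ 2)⁻¹ with hk
  have h1 := mul_le_mul_of_nonneg_left hsum hK.le
  have h2 : E * (k * S1) - E * (k * S2) ≤ k * S3 - Real.log Z * (k * S1) + Z * (k * S4) := by
    calc E * (k * S1) - E * (k * S2) = k * (E * S1 - E * S2) := by ring
      _ ≤ k * (S3 - Real.log Z * S1 + Z * S4) := h1
      _ = _ := by ring
  rw [hmass] at h2
  have h3 : Z * (k * S4) ≤ Z * 1 := mul_le_mul_of_nonneg_left hnext hZ.le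
  have h4 : E * (Z - k * S2) ≤ Z * (κ - Real.log Z + 1) := by nlinarith
  have h5 : Z * (κ - Real.log Z + 1) ≤ Z * (E / 2) := mul_le_mul_of_nonneg_left (by linarith) hZ.le
  have h6 : E * (Z - k * S2) ≤ E * (Z / 2) := by linarith
  have h7 := le_of_mul_le_mul_left h6 hE0
  linarith

include hA h01 in
/-- the quantitative multiples theorem -/
theorem mult_quant (hT : 1 ≤ T) (hZ : 0 < GG A T a T 0) (m : ℕ) (E : ℝ) (hE0 : 0 < E)
    (hE : 2 * (Real.log ((bx n (T + 1)).card / GG A T a T 0) / T - Real.log (GG A T a T 0) + 1) ≤ E) :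
    (Real.exp (-E) / 4) ^ m * (GG A T a T 0 / 2) ^ (4 * m) ≤ QQ A (m * a) := by
  obtain ⟨N, hN, hκ⟩ := exists_N T a hT hZ h01
  rw [mul_div_assoc] at hκ
  have hg := good hA h01 T a hN hZ _ hκ E hE0 hE
  set c := Real.exp (-E) with hc
  -- shift and expand `GG`
  have h1 : ∑ z ∈ A ×ˢ A, ∑ p ∈ bx n (T + 1),
      (if c * LL A N p ≤ LL A (N + 1) (p + dd z) then LL A N p else 0) * GG A T a (T - (N + 1)) (p + dd z) =
      ∑ r ∈ bx n (T + 1), LL A (T - (N + 1)) r * ∑ z ∈ A ×ˢ A, ∑ q ∈ bx n (T + 1),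
        lamz (LL A N) (LL A (N + 1)) c z q * gg A a (q + r) := by
    have h2 : ∀ z ∈ A ×ˢ A, ∑ p ∈ bx n (T + 1),
        (if c * LL A N p ≤ LL A (N + 1) (p + dd z) then LL A N p else 0) * GG A T a (T - (N + 1)) (p + dd z) =
        ∑ q ∈ bx n (T + 1), lamz (LL A N) (LL A (N + 1)) c z q * GG A T a (T - (N + 1)) q := by
      intro z hz
      have := shift (bx n (T + 1)) (dd z) (fun p => (if c * LL A N p ≤ LL A (N + 1) (p + dd z) then LL A N p else 0) *
        GG A T a (T - (N + 1)) (p + dd z)) (fun q hq => by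
          have hq' : LL A N q ≠ 0 := by
            intro h; apply hq; rw [h]; simp
          have h3 := LL_supp h01 N hq'
          exact ⟨bx_mono (by omega) h3, bx_mono (by omega) (bx_add h01 hz h3)⟩)
      rw [← this]
      simp only [sub_add_cancel]
      rfl
    rw [sum_congr rfl h2]
    unfold GG
    simp only [mul_sum]
    rw [sum_comm]
    calc ∑ q ∈ bx n (T + 1), ∑ z ∈ A ×ˢ A, ∑ r ∈ bx n (T + 1),
          lamz (LL A N) (LL A (N + 1)) c z q * (LL A (T - (N + 1)) r * gg A a (q + r))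
        = ∑ z ∈ A ×ˢ A, ∑ q ∈ bx n (T + 1), ∑ r ∈ bx n (T + 1),
          lamz (LL A N) (LL A (N + 1)) c z q * (LL A (T - (N + 1)) r * gg A a (q + r)) := sum_comm
      _ = ∑ z ∈ A ×ˢ A, ∑ r ∈ bx n (T + 1), ∑ q ∈ bx n (T + 1),
          lamz (LL A N) (LL A (N + 1)) c z q * (LL A (T - (N + 1)) r * gg A a (q + r)) :=
          sum_congr rfl fun z _ => sum_comm
      _ = ∑ r ∈ bx n (T + 1), ∑ z ∈ A ×ˢ A, ∑ q ∈ bx n (T + 1),
          lamz (LL A N) (LL A (N + 1)) c z q * (LL A (T - (N + 1)) r * gg A a (q + r)) := sum_comm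
      _ = _ := by
          apply sum_congr rfl; intro r _
          apply sum_congr rfl; intro z _
          apply sum_congr rfl; intro q _
          ring
  rw [h1, mul_sum] at hg
  -- choose `r`
  have hLm := LL_mass hA h01 T (N := T - (N + 1)) (by omega)
  obtain ⟨r, _, hr⟩ : ∃ r ∈ bx n (T + 1), GG A T a T 0 / 2 ≤ ((A.card : ℝ) ^ 2)⁻¹ * ∑ z ∈ A ×ˢ A,
      ∑ q ∈ bx n (T + 1), lamz (LL A N) (LL A (N + 1)) c z q * gg A a (q + r) := by
    by_contra hcon
    push Not at hcon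
    have h3 : ∑ r ∈ bx n (T + 1), ((A.card : ℝ) ^ 2)⁻¹ * (LL A (T - (N + 1)) r * ∑ z ∈ A ×ˢ A,
        ∑ q ∈ bx n (T + 1), lamz (LL A N) (LL A (N + 1)) c z q * gg A a (q + r)) <
        ∑ r ∈ bx n (T + 1), LL A (T - (N + 1)) r * (GG A T a T 0 / 2) := by
      apply sum_lt_sum
      · intro r hr
        have := mul_le_mul_of_nonneg_left (hcon r hr).le (LL_nonneg A (T - (N + 1)) r)
        linarith
      · have h4 : ∑ r ∈ bx n (T + 1), LL A (T - (N + 1)) r ≠ 0 := by rw [hLm]; norm_num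
        obtain ⟨r, hr, hr2⟩ := exists_ne_zero_of_sum_ne_zero h4
        refine ⟨r, hr, ?_⟩
        have hpos : 0 < LL A (T - (N + 1)) r := lt_of_le_of_ne (LL_nonneg _ _ _) (Ne.symm hr2)
        have := mul_lt_mul_of_pos_left (hcon r hr) hpos
        linarith
    rw [← sum_mul, hLm, one_mul] at h3
    linarith
  have hcore := core hA a m (bx n (T + 1)) (LL A N) (LL A (N + 1)) (LL_nonneg A N) (LL_nonneg A (N + 1))
    (LL_mass hA h01 T (by omega)).le (LL_mass hA h01 T (by omega)).le (by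
      intro q hq
      rcases hq with hq | hq
      · have h3 := LL_supp h01 N hq
        exact ⟨bx_mono (by omega) h3, fun z hz => bx_mono (by omega) (bx_add h01 hz h3)⟩
      · have h3 := LL_supp h01 (N + 1) hq
        exact ⟨bx_mono (by omega) h3, fun z hz => bx_mono (by omega) (bx_add h01 hz h3)⟩)
    r c (Real.exp_pos _).le (GG A T a T 0 / 2) (by linarith) (by have h5 := hr; rw [← div_eq_inv_mul] at h5; exact h5)
  exact hcore

include hA h01 in
/-- the transform of the walk -/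
theorem ft_LL {N : ℕ} (hN : N ≤ T + 1) (z : (Fin n → ℤ) × (Fin n → ℤ)) :
    ft a (bx n (T + 1)) (LL A N) z = ((gg A a (dd z) ^ N : ℝ) : ℂ) := by
  induction N with
  | zero =>
    unfold ft LL
    have h1 : ∀ q ∈ bx n (T + 1), ((if q = 0 then (1 : ℝ) else 0 : ℝ) : ℂ) * chi a q z = if q = 0 then chi a q z else 0 := by
      intro q _; split_ifs <;> simp
    rw [sum_congr rfl h1, sum_ite_eq' (bx n (T + 1)) 0 (fun q => chi a q z), if_pos, chi_zero]
    · simp
    · rw [mem_bx]; intro i; simp; omega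
  | succ N ih =>
    have h1 := LL_step h01 T (fun q => chi a q z) (N := N) (by omega)
    simp only [Complex.real_smul] at h1
    have h2 : ft a (bx n (T + 1)) (LL A (N + 1)) z = _ := h1
    rw [h2]
    have h3 : ∀ z' ∈ A ×ˢ A, ∑ p ∈ bx n (T + 1), ((LL A N p : ℝ) : ℂ) * chi a (p + dd z') z =
        chi a (dd z) z' * ft a (bx n (T + 1)) (LL A N) z := by
      intro z' _
      unfold ft
      rw [mul_sum]
      apply sum_congr rfl; intro p _
      rw [chi_add]
      have h4 : chi a (dd z') z = chi a (dd z) z' := by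
        unfold chi; rw [dotProduct_comm]
      rw [h4]; ring
    rw [sum_congr rfl h3, ← sum_mul, ih (by omega)]
    have h5 := gg_avg hA a (dd z)
    rw [pow_succ]
    push_cast
    rw [h5]
    ring

include hA h01 in
theorem Z_ge : QQ A a ^ T ≤ GG A T a T 0 := by
  have hc : (0 : ℝ) < A.card := by exact_mod_cast hA.card_pos
  have hPcard : ((A ×ˢ A).card : ℝ) = (A.card : ℝ) ^ 2 := by rw [card_product]; push_cast; ring
  have h1 : GG A T a T 0 = (∑ z ∈ A ×ˢ A, gg A a (dd z) ^ T) / (A.card : ℝ) ^ 2 := by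
    have h2 : ((GG A T a T 0 : ℝ) : ℂ) = (((∑ z ∈ A ×ˢ A, gg A a (dd z) ^ T) / (A.card : ℝ) ^ 2 : ℝ) : ℂ) := by
      unfold GG
      rw [Complex.ofReal_sum]
      have h3 : ∀ r ∈ bx n (T + 1), ((LL A T r * gg A a (0 + r) : ℝ) : ℂ) =
          (∑ z ∈ A ×ˢ A, ((LL A T r : ℝ) : ℂ) * chi a r z) / (A.card : ℂ) ^ 2 := by
        intro r _
        rw [zero_add, Complex.ofReal_mul, gg_avg hA, ← mul_sum, mul_div_assoc]
      rw [sum_congr rfl h3, ← sum_div, sum_comm]
      have h4 : ∀ z ∈ A ×ˢ A, ∑ r ∈ bx n (T + 1), ((LL A T r : ℝ) : ℂ) * chi a r z = ((gg A a (dd z) ^ T : ℝ) : ℂ) :=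
        fun z _ => ft_LL hA h01 T a (by omega) z
      rw [sum_congr rfl h4]
      push_cast; rfl
    exact_mod_cast h2
  rw [h1]
  have := Real.pow_arith_mean_le_arith_mean_pow (A ×ˢ A) (fun _ => 1 / (A.card : ℝ) ^ 2)
    (fun z => gg A a (dd z)) (fun _ _ => by positivity)
    (by rw [sum_const, nsmul_eq_mul, hPcard]; field_simp) (fun _ _ => gg_nonneg _ _ _) T
  rw [← mul_sum, ← mul_sum] at this
  unfold QQ
  calc ((∑ z ∈ A ×ˢ A, gg A a (dd z)) / (A.card : ℝ) ^ 2) ^ T
      = (1 / (A.card : ℝ) ^ 2 * ∑ z ∈ A ×ˢ A, gg A a (dd z)) ^ T := by congr 1; ring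
    _ ≤ _ := this
    _ = _ := by ring

end walk

end Pool.Agent.Lib.MP_0430e4_lc.ACM
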